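import Pool.Agent.Y817.WA.Main
import Pool.Agent.Y246.WK.Arith
import Pool.Agent.Y171.WK.Derive
import Pool.Agent.Y986.WK.Pde
import Pool.Agent.Y986.WK.Tri

/-!
# MP_59b51d_al: varieties of alternative algebras with undecidable word problem

Let `K` be a field of characteristic zero and let `V` be a variety of alternative algebras over `K`
(for instance the variety of all alternative algebras, or a variety of associative algebras) which
contains all associative algebras with the identities `x[y,z][t,u]v = 0` and `x[y,z,t]u = 0`.  Then
some algebra finitely presented in `V` has undecidable word problem.

Two ingredients.  (1) (Pool.Agent.Y817.WK, with parts proved by helpers 246, 171, 986.) An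
encoding of the negative solution of Hilbert's tenth problem by linear differential equations gives
finitely many relations and an undecidable set of words which vanish, both in all associative algebras
with these relations and in a triangular algebra which satisfies the two identities.  (2)
(Pool.Agent.Y817.WA.Alt.)  If in an alternative algebra without elements of additive order two the
associators `(g_i, g_j, g_k)` and `(g_i g_j, g_k, g_l)` of the generators vanish, then the algebra is
associative; so an algebra which is finitely presented in the class of the associative members of `V`
is finitely presented in `V`.
-/

set_option autoImplicit false

namespace Pool.Agent.Results.MP_59b51d_al.AlternativeAboveW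

open Pool.Agent.Y817.WA

/-- There are a natural number `k` and a finite set `R` of nonassociative polynomials with integral
coefficients in `k` letters such that, for every field `K` of characteristic zero, every coding `ν` of
the elements of `K` by natural numbers and every variety of alternative `K`-algebras containing `W_K`
(given by a set `Id` of identities), the word problem of the algebra presented by `R` in this variety
is undecidable. -/
theorem result :
    ∃ (k : ℕ) (R : List (List (ℤ × FreeMagma (Fin k)))),
      ∀ (K : Type) [Field K] [CharZero K] (ν : ℕ → K), Function.Surjective ν →
        ∀ Id : Set (List (K × FreeMagma ℕ)), ContainsW K Id → IsAlternative K Id →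
          ¬ DecidableWP ν Id (R.map fun r => r.map fun t => ((t.1 : K), t.2)) :=
  main Pool.Agent.Y246.WK.t Pool.Agent.Y171.WK.t
    (Pool.Agent.Y817.WK.model Pool.Agent.Y986.WK.Tri.t Pool.Agent.Y986.WK.t)

end Pool.Agent.Results.MP_59b51d_al.AlternativeAboveW
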