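import Pool.Agent.Y817.WA.JorC
import Pool.Agent.Y246.WK.Arith
import Pool.Agent.Y171.WK.Derive
import Pool.Agent.Y986.WK.Pde
import Pool.Agent.Y986.WK.Tri

/-!
# MP_59b51d_al: varieties of Jordan-admissible algebras with undecidable word problem

An algebra `A` is Jordan-admissible if the vector space `A` with the product `x o y = xy + yx` (the
algebra `A ^ (+)`) satisfies the Jordan identity: for instance associative, alternative, right
alternative, Jordan and noncommutative Jordan algebras.  Every variety of Jordan-admissible algebras
over a field of characteristic zero which contains all associative algebras, or the algebras `A ^ (+)`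
of all associative algebras `A`, has a finitely presented algebra with undecidable word problem.

Proof.  Let `r(g)` be relators in `g_1, ..., g_k` with an undecidable set of consequences `w(g) = 0`
in associative algebras.  Take generators `x_i, y_i, i, e` and relations `e o x_j = 2 x_j`,
`e o y_j = 0`, `x_i o y_j = 0`, `x_j o i = y_j o i` and `r(L_x) i = 0`.  The operators `L_(x_i)` and
`L_(y_j)` commute by the linearized Jordan identity, so the relators act as zero on the module
generated by `i`, and `w(g) = 0` implies `w(L_x) i = 0`.  In two by two matrices over an algebra
generated by the `g_j` with the relations, `x_j = g_j e_11`, `y_j = g_j e_22`, `i = e_12`,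
`e = e_11` satisfy the relations and `w(L_x) i = w(g) e_12`.
-/

set_option autoImplicit false

namespace Pool.Agent.Results.MP_59b51d_al.JordanAdmissible

open Pool.Agent.Y817.WA
open Pool.Agent.Y817.WA.Jor (pm Plus)

/-- There are a natural number `m` and a finite set `R` of nonassociative polynomials with integral
coefficients in `m` letters such that, for every field `K` of characteristic zero, every coding `ν` of
the elements of `K` by natural numbers and every variety of Jordan-admissible `K`-algebras which
contains all associative algebras or all algebras `A ^ (+)` with `A` associative, the word problem of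
the algebra presented by `R` in this variety is undecidable. -/
theorem result :
    ∃ (m : ℕ) (R : List (List (ℤ × FreeMagma (Fin m)))),
      ∀ (K : Type) [Field K] [CharZero K] (ν : ℕ → K), Function.Surjective ν →
        ∀ Id : Set (List (K × FreeMagma ℕ)),
          (∀ (A : Type) [NonUnitalNonAssocRing A] [Module K A] [IsScalarTower K A A]
            [SMulCommClass K A A], InVar Id A →
            ∀ x y : A, pm (pm (pm x x) y) x = pm (pm x x) (pm y x)) →
          ((∀ (A : Type) [NonUnitalRing A] [Module K A] [IsScalarTower K A A]
            [SMulCommClass K A A], InVar Id A) ∨
          (∀ (A : Type) [NonUnitalRing A] [Module K A] [IsScalarTower K A A]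
            [SMulCommClass K A A], InVar Id (Plus A))) →
          ¬ DecidableWP ν Id (R.map fun r => r.map fun t => ((t.1 : K), t.2)) :=
  JorA.mainJ Pool.Agent.Y246.WK.t Pool.Agent.Y171.WK.t
    (Pool.Agent.Y817.WK.model Pool.Agent.Y986.WK.Tri.t Pool.Agent.Y986.WK.t)

end Pool.Agent.Results.MP_59b51d_al.JordanAdmissible
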